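import Pool.Agent.Lib.MP_b2e238_gt.K.Dif

/-! The standard open book of the four-sphere in explicit coordinates. -/

open scoped ContDiff Topology
open Set Metric

noncomputable section

namespace Pool.Agent.Lib.MP_b2e238_gt

section Nrm
variable {V : Type} [NormedAddCommGroup V] [NormedSpace ℝ V]

/-- The square of the Euclidean norm. -/
def pgQ (a : (ℝ × ℂ) × V) : ℝ := a.1.1 ^ 2 + ‖a.1.2‖ ^ 2 + ‖a.2‖ ^ 2

theorem nrm_eq (a : (ℝ × ℂ) × V) : nrm a = (√(pgQ a))⁻¹ • a := rfl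

theorem pgQ_smul (c : ℝ) (a : (ℝ × ℂ) × V) : pgQ (c • a) = c ^ 2 * pgQ a := by
  simp only [pgQ, Prod.smul_fst, Prod.smul_snd, norm_smul, smul_eq_mul, mul_pow, Real.norm_eq_abs,
    sq_abs]
  ring

theorem nrm_smul {c : ℝ} (hc : 0 < c) (a : (ℝ × ℂ) × V) : nrm (c • a) = nrm a := by
  rw [nrm_eq, nrm_eq, pgQ_smul, Real.sqrt_mul (sq_nonneg c), Real.sqrt_sq hc.le, smul_smul,
    mul_inv, mul_comm c⁻¹, mul_assoc, inv_mul_cancel₀ hc.ne', mul_one]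

theorem nrm_self {a : (ℝ × ℂ) × V} (h : a ∈ Sph V) : nrm a = a := by
  have h' : pgQ a = 1 := h
  rw [nrm_eq, h']; simp

theorem nrm_mem {a : (ℝ × ℂ) × V} (h : 0 < pgQ a) : nrm a ∈ Sph V := by
  change pgQ (nrm a) = 1
  rw [nrm_eq, pgQ_smul, inv_pow, Real.sq_sqrt h.le, inv_mul_cancel₀ h.ne']

theorem contDiff_pgQ (hV : ContDiff ℝ ∞ fun v : V => ‖v‖ ^ 2) : ContDiff ℝ ∞ (pgQ (V := V)) := by
  have h1 : ContDiff ℝ ∞ fun v : ℂ => ‖v‖ ^ 2 := contDiff_norm_sq ℝ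
  exact ((contDiff_fst.fst.pow 2).add (h1.comp contDiff_fst.snd)).add (hV.comp contDiff_snd)

theorem contDiffAt_nrm (hV : ContDiff ℝ ∞ fun v : V => ‖v‖ ^ 2) {a : (ℝ × ℂ) × V}
    (h : 0 < pgQ a) : ContDiffAt ℝ ∞ (nrm (V := V)) a :=
  (((contDiff_pgQ hV).contDiffAt.sqrt h.ne').inv (Real.sqrt_pos.2 h).ne').smul contDiffAt_id
end Nrm

theorem sqR : ContDiff ℝ ∞ fun v : ℝ => ‖v‖ ^ 2 := contDiff_norm_sq ℝ
theorem sqC : ContDiff ℝ ∞ fun v : ℂ => ‖v‖ ^ 2 := contDiff_norm_sq ℝ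

/-- The pages, with the angle as a unit complex number. -/
def pg (a : ((ℝ × ℂ) × ℝ) × ℂ) : (ℝ × ℂ) × ℂ := nrm (a.1.1, (1 - a.1.2 : ℝ) * a.2)

/-- The inverse of `pg`. -/
def pg' (x : (ℝ × ℂ) × ℂ) : ((ℝ × ℂ) × ℝ) × ℂ :=
  (((2 * ‖x.2‖) • x.1, 1 - 2 * ‖x.2‖ ^ 2), (‖x.2‖⁻¹ : ℝ) • x.2)

theorem page_eq (t : ℝ) (y : (ℝ × ℂ) × ℝ) : page t y = pg (y, ex t) := rfl

theorem sph_lt {y : (ℝ × ℂ) × ℝ} (h : y ∈ Sph ℝ) (k : y ≠ (0, 1)) : y.2 < 1 := by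
  have h' : y.1.1 ^ 2 + ‖y.1.2‖ ^ 2 + ‖y.2‖ ^ 2 = 1 := h
  rw [Real.norm_eq_abs, sq_abs] at h'
  by_contra c
  push Not at c
  have a1 : y.1.1 ^ 2 = 0 := by nlinarith [sq_nonneg y.1.1, sq_nonneg ‖y.1.2‖]
  have a2 : ‖y.1.2‖ ^ 2 = 0 := by nlinarith [sq_nonneg y.1.1, sq_nonneg ‖y.1.2‖]
  have a3 : y.2 = 1 := by nlinarith
  exact k (Prod.ext (Prod.ext (pow_eq_zero_iff two_ne_zero |>.1 a1)
    (norm_eq_zero.1 (pow_eq_zero_iff two_ne_zero |>.1 a2))) a3)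

theorem pgQ_page {y : (ℝ × ℂ) × ℝ} (h : y ∈ Sph ℝ) {w : ℂ} (hw : ‖w‖ = 1) :
    pgQ (y.1, ((1 - y.2 : ℝ) : ℂ) * w) = 2 * (1 - y.2) := by
  have h' : y.1.1 ^ 2 + ‖y.1.2‖ ^ 2 + ‖y.2‖ ^ 2 = 1 := h
  rw [Real.norm_eq_abs, sq_abs] at h'
  simp only [pgQ, norm_mul, hw, Complex.norm_real, Real.norm_eq_abs, mul_one, sq_abs]
  nlinarith

/-- The complement of the binding is `(S³ - pole) × S¹`. -/
theorem page_dif : Dif ((Sph ℝ \ {(0, 1)}) ×ˢ sphere (0 : ℂ) 1) {x ∈ Sph ℂ | x.2 ≠ 0} pg pg' := by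
  have pos : ∀ a ∈ (Sph ℝ \ {(0, 1)}) ×ˢ sphere (0 : ℂ) 1,
      0 < pgQ (a.1.1, ((1 - a.1.2 : ℝ) : ℂ) * a.2) := fun a ha => by
    rw [pgQ_page ha.1.1 (by simpa using ha.2)]
    linarith [sph_lt ha.1.1 ha.1.2]
  refine ⟨fun a ha => ?_, fun x hx => ?_, fun a ha => ⟨nrm_mem (pos a ha), ?_⟩, fun x hx => ?_,
    fun a ha => ?_, fun x hx => ?_⟩
  · refine ((contDiffAt_nrm sqC (pos a ha)).comp a ?_).contDiffWithinAt
    have : ContDiff ℝ ∞ ((↑) : ℝ → ℂ) := Complex.ofRealCLM.contDiff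
    fun_prop
  · have n : ContDiffAt ℝ ∞ (fun x : (ℝ × ℂ) × ℂ => ‖x.2‖) x :=
      (contDiffAt_norm ℝ hx.2).comp x contDiffAt_snd
    exact ((((contDiffAt_const.mul n).smul contDiffAt_fst).prodMk
      (contDiffAt_const.sub (contDiffAt_const.mul (n.pow 2)))).prodMk
      ((n.inv (norm_ne_zero_iff.2 hx.2)).smul contDiffAt_snd)).contDiffWithinAt
  · have d := sph_lt ha.1.1 ha.1.2
    have w : ‖a.2‖ = 1 := by simpa using ha.2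
    refine smul_ne_zero (inv_ne_zero (Real.sqrt_pos.2 (pos a ha)).ne') (mul_ne_zero ?_ ?_)
    · exact Complex.ofReal_ne_zero.2 (by linarith)
    · rintro h; simp [h] at w
  · have h' : x.1.1 ^ 2 + ‖x.1.2‖ ^ 2 + ‖x.2‖ ^ 2 = 1 := hx.1
    have m : 0 < ‖x.2‖ := norm_pos_iff.2 hx.2
    refine ⟨⟨?_, fun h => ?_⟩, ?_⟩
    · change ((2 * ‖x.2‖) * x.1.1) ^ 2 + ‖(2 * ‖x.2‖) • x.1.2‖ ^ 2 + ‖1 - 2 * ‖x.2‖ ^ 2‖ ^ 2 = 1
      rw [norm_smul, mul_pow _ ‖x.1.2‖, Real.norm_eq_abs, Real.norm_eq_abs, sq_abs, sq_abs]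
      linear_combination (4 * ‖x.2‖ ^ 2) * h'
    · have : 1 - 2 * ‖x.2‖ ^ 2 = 1 := congrArg Prod.snd h
      nlinarith
    · simp [pg', norm_smul, m.ne']
  · obtain ⟨⟨u, v⟩, w⟩ := a
    have d : 0 < 1 - v := by linarith [sph_lt ha.1.1 ha.1.2]
    have hw : ‖w‖ = 1 := by simpa using ha.2
    have q := pgQ_page ha.1.1 hw
    have s := Real.sqrt_pos.2 (pos _ ha)
    have s2 := Real.sq_sqrt (pos _ ha).le
    simp only at q s s2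
    rw [q] at s s2
    have n : ‖(pg ((u, v), w)).2‖ = (√(2 * (1 - v)))⁻¹ * (1 - v) := by
      simp only [pg, nrm_eq, q, Prod.smul_snd, norm_smul, norm_mul, hw, Complex.norm_real,
        Real.norm_eq_abs, abs_of_pos d, abs_of_pos (inv_pos.2 s), mul_one]
    simp only [pg', n]
    simp only [pg, nrm_eq, q, Prod.smul_fst, Prod.smul_snd, smul_smul]
    set z := √(2 * (1 - v))
    have e1 : 2 * (z⁻¹ * (1 - v)) * z⁻¹ = 1 := by field_simp; linarith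
    have e2 : 1 - 2 * (z⁻¹ * (1 - v)) ^ 2 = v := by
      linear_combination (v - 1) * e1
    have e3 : ((z⁻¹ * (1 - v))⁻¹ * z⁻¹) • (((1 - v : ℝ) : ℂ) * w) = w := by
      rw [← Complex.real_smul, smul_smul]
      have : (z⁻¹ * (1 - v))⁻¹ * z⁻¹ * (1 - v) = 1 := by field_simp
      rw [this, one_smul]
    rw [e1, e2, e3, one_smul]
  · have m : 0 < ‖x.2‖ := norm_pos_iff.2 hx.2
    have : ((2 * ‖x.2‖) • x.1, ((1 - (1 - 2 * ‖x.2‖ ^ 2) : ℝ) : ℂ) * (‖x.2‖⁻¹ : ℝ) • x.2) =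
        (2 * ‖x.2‖) • x := by
      refine Prod.ext rfl ?_
      have : (1 - (1 - 2 * ‖x.2‖ ^ 2)) * ‖x.2‖⁻¹ = 2 * ‖x.2‖ := by field_simp; ring
      rw [← Complex.real_smul, smul_smul, this]; rfl
    simp only [pg, pg']
    rw [this, nrm_smul (by positivity), nrm_self hx.1]

/-- The neighbourhood `ℂ × S²` of the binding. -/
def bd (a : ℂ × E3) : (ℝ × ℂ) × ℂ := nrm (a.2.swap, a.1)

/-- The inverse of `bd`. -/
def bd' (x : (ℝ × ℂ) × ℂ) : ℂ × E3 :=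
  ((√(1 - ‖x.2‖ ^ 2))⁻¹ • x.2, (√(1 - ‖x.2‖ ^ 2))⁻¹ • x.1.swap)

theorem pgQ_bd {o : E3} (h : o ∈ S2) (η : ℂ) : pgQ (o.swap, η) = 1 + ‖η‖ ^ 2 := by
  have h' : ‖o.1‖ ^ 2 + o.2 ^ 2 = 1 := h
  simp only [pgQ, Prod.fst_swap, Prod.snd_swap]; linarith

theorem bind_dif : Dif (univ ×ˢ S2) {x ∈ Sph ℂ | ‖x.2‖ < 1} bd bd' := by
  have pos : ∀ a ∈ (univ : Set ℂ) ×ˢ S2, 0 < pgQ (a.2.swap, a.1) := fun a ha => by
    rw [pgQ_bd ha.2]; positivity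
  have n2 : ∀ a ∈ (univ : Set ℂ) ×ˢ S2, 1 - ‖(bd a).2‖ ^ 2 = (1 + ‖a.1‖ ^ 2)⁻¹ := fun a ha => by
    have p : 0 < 1 + ‖a.1‖ ^ 2 := by positivity
    simp only [bd, nrm_eq, pgQ_bd ha.2, Prod.smul_snd, norm_smul, mul_pow, Real.norm_eq_abs, sq_abs,
      inv_pow, Real.sq_sqrt p.le]
    field_simp; ring
  have lt : ∀ x : (ℝ × ℂ) × ℂ, ‖x.2‖ < 1 → 0 < 1 - ‖x.2‖ ^ 2 := fun x h => by
    nlinarith [norm_nonneg x.2]
  refine ⟨fun a ha => ?_, fun x hx => ?_, fun a ha => ⟨nrm_mem (pos a ha), ?_⟩, fun x hx => ?_,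
    fun a ha => ?_, fun x hx => ?_⟩
  · refine ((contDiffAt_nrm sqC (pos a ha)).comp a ?_).contDiffWithinAt
    exact (contDiffAt_snd.snd.prodMk contDiffAt_snd.fst).prodMk contDiffAt_fst
  · have n : ContDiffAt ℝ ∞ (fun x : (ℝ × ℂ) × ℂ => (√(1 - ‖x.2‖ ^ 2))⁻¹) x :=
      ((contDiffAt_const.sub (sqC.contDiffAt.comp x contDiffAt_snd)).sqrt (lt x hx.2).ne').inv
        (Real.sqrt_pos.2 (lt x hx.2)).ne'
    exact ((n.smul contDiffAt_snd).prodMk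
      (n.smul (contDiffAt_fst.snd.prodMk contDiffAt_fst.fst))).contDiffWithinAt
  · have p : 0 < (1 + ‖a.1‖ ^ 2)⁻¹ := by positivity
    have := n2 a ha
    by_contra c
    nlinarith [not_lt.1 c]
  · have h' : x.1.1 ^ 2 + ‖x.1.2‖ ^ 2 + ‖x.2‖ ^ 2 = 1 := hx.1
    refine ⟨trivial, ?_⟩
    change ‖(√(1 - ‖x.2‖ ^ 2))⁻¹ • x.1.2‖ ^ 2 + ((√(1 - ‖x.2‖ ^ 2))⁻¹ * x.1.1) ^ 2 = 1
    have := lt x hx.2
    rw [norm_smul, mul_pow, mul_pow, Real.norm_eq_abs, sq_abs, inv_pow, Real.sq_sqrt this.le]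
    field_simp; linarith
  · have p : 0 < √(1 + ‖a.1‖ ^ 2) := by positivity
    simp only [bd', n2 a ha, Real.sqrt_inv, inv_inv]
    simp only [bd, nrm_eq, pgQ_bd ha.2, Prod.smul_fst, Prod.smul_snd, Prod.smul_swap, smul_smul,
      mul_inv_cancel₀ p.ne', one_smul, Prod.swap_swap]
  · have p : 0 < (√(1 - ‖x.2‖ ^ 2))⁻¹ := inv_pos.2 (Real.sqrt_pos.2 (lt x hx.2))
    have : bd (bd' x) = nrm ((√(1 - ‖x.2‖ ^ 2))⁻¹ • x) := rfl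
    rw [this, nrm_smul p, nrm_self hx.1]

theorem bd_zero : bd '' ({0} ×ˢ S2) = {x ∈ Sph ℂ | x.2 = 0} := by
  ext x
  constructor
  · rintro ⟨a, ⟨h0, h⟩, rfl⟩
    refine ⟨(bind_dif.mF ⟨trivial, h⟩).1, ?_⟩
    have : a.1 = 0 := h0
    simp [bd, nrm_eq, this]
  · rintro ⟨h, h0⟩
    have m : x ∈ {x ∈ Sph ℂ | ‖x.2‖ < 1} := ⟨h, by simp [h0]⟩
    exact ⟨bd' x, ⟨by simp [bd', h0], (bind_dif.mG m).2⟩, bind_dif.fg x m⟩

/-- The plane onto the unit disc. -/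
def dk (ζ : ℂ) : ℂ := (1 + √(1 + ‖ζ‖ ^ 2))⁻¹ • ζ

/-- The inverse of `dk`. -/
def dk' (η : ℂ) : ℂ := (2 / (1 - ‖η‖ ^ 2)) • η

theorem dk_dif : Dif univ (ball 0 1) dk dk' := by
  have n2 : ∀ ζ, 1 - ‖dk ζ‖ ^ 2 = 2 / (1 + √(1 + ‖ζ‖ ^ 2)) := fun ζ => by
    have p : 0 < 1 + √(1 + ‖ζ‖ ^ 2) := by positivity
    have s := Real.sq_sqrt (show 0 ≤ 1 + ‖ζ‖ ^ 2 by positivity)
    simp only [dk, norm_smul, mul_pow, Real.norm_eq_abs, sq_abs]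
    field_simp; linarith
  have lt : ∀ η ∈ ball (0 : ℂ) 1, 0 < 1 - ‖η‖ ^ 2 := fun η h => by
    nlinarith [norm_nonneg η, mem_ball_zero_iff.1 h]
  refine ⟨fun ζ _ => ?_, fun η h => ?_, fun ζ _ => ?_, fun _ _ => trivial, fun ζ _ => ?_,
    fun η h => ?_⟩
  · refine (((contDiffAt_const.add ((contDiffAt_const.add sqC.contDiffAt).sqrt ?_)).inv ?_).smul
      contDiffAt_id).contDiffWithinAt <;> positivity
  · exact ((contDiffAt_const.div (contDiffAt_const.sub sqC.contDiffAt) (lt η h).ne').smul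
      contDiffAt_id).contDiffWithinAt
  · have p : 0 < 2 / (1 + √(1 + ‖ζ‖ ^ 2)) := by positivity
    have := n2 ζ
    rw [mem_ball_zero_iff]
    by_contra c
    nlinarith [not_lt.1 c]
  · have p : 0 < 1 + √(1 + ‖ζ‖ ^ 2) := by positivity
    simp only [dk', n2]
    simp only [dk, smul_smul]
    have : 2 / (2 / (1 + √(1 + ‖ζ‖ ^ 2))) * (1 + √(1 + ‖ζ‖ ^ 2))⁻¹ = 1 := by field_simp
    rw [this, one_smul]
  · have p := lt η h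
    have s : √(1 + ‖dk' η‖ ^ 2) = (1 + ‖η‖ ^ 2) / (1 - ‖η‖ ^ 2) := by
      rw [Real.sqrt_eq_iff_mul_self_eq (by positivity) (by positivity)]
      simp only [dk', norm_smul, mul_pow, Real.norm_eq_abs, sq_abs]
      field_simp; ring
    simp only [dk, s]
    simp only [dk', smul_smul]
    have : (1 + (1 + ‖η‖ ^ 2) / (1 - ‖η‖ ^ 2))⁻¹ * (2 / (1 - ‖η‖ ^ 2)) = 1 := by field_simp; ring
    rw [this, one_smul]

/-- The pages near the pole in polar coordinates. -/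
theorem pg_nrm {ρ : ℝ} (h : 0 < ρ) {o : E3} (ho : o ∈ S2) {w : ℂ} (hw : ‖w‖ = 1) :
    pg (nrm ((ρ • o).swap, 1), w) = bd (dk (ρ * w), o) := by
  have h' : ‖o.1‖ ^ 2 + o.2 ^ 2 = 1 := ho
  have q : pgQ (((ρ • o).swap, 1) : (ℝ × ℂ) × ℝ) = 1 + ρ ^ 2 := by
    simp only [pgQ, Prod.fst_swap, Prod.snd_swap, Prod.smul_fst, Prod.smul_snd, norm_smul, mul_pow,
      smul_eq_mul, Real.norm_eq_abs, sq_abs, one_pow]
    linear_combination ρ ^ 2 * h'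
  have n : ‖(ρ : ℂ) * w‖ ^ 2 = ρ ^ 2 := by simp [hw]
  have s := Real.sq_sqrt (show 0 ≤ 1 + ρ ^ 2 by positivity)
  have p : 0 < √(1 + ρ ^ 2) := by positivity
  simp only [pg, bd, dk, n]
  rw [← nrm_smul (c := ρ / √(1 + ρ ^ 2)) (by positivity) (o.swap, _)]
  congr 1
  rw [nrm_eq, q]
  simp only [Prod.smul_fst, Prod.smul_snd, Prod.smul_mk, ← Prod.smul_swap, smul_smul,
    smul_eq_mul, mul_one, ← Complex.real_smul]
  set z := √(1 + ρ ^ 2)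
  congr 2
  · field_simp
  · field_simp; linarith

/-- `S⁴` is the surgery of `S³ × S¹` on a circle fibre. -/
theorem surg_base : Surg (Sph ℝ ×ˢ sphere (0 : ℂ) 1) (fun u => (nrm (u.2.swap, 1), ex u.1))
    (Sph ℂ) := by
  have o : Opn {x ∈ Sph ℂ | ‖x.2‖ < 1} (Sph ℂ) :=
    opn_iff.2 ⟨{x | ‖x.2‖ < 1}, isOpen_lt (by fun_prop) continuous_const, rfl⟩
  have d1 : Dif (univ ×ˢ S2) (ball 0 1 ×ˢ S2) (Prod.map dk id) (Prod.map dk' id) :=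
    dk_dif.prod (Dif.refl S2)
  have ob : ∀ B : Set ℂ, Opn (ball (0 : ℂ) 1 ×ˢ S2) (univ ×ˢ S2) := fun _ =>
    opn_iff.2 ⟨ball 0 1 ×ˢ univ, isOpen_ball.prod isOpen_univ, by ext; simp [and_comm]⟩
  have d2 := d1.trans (bind_dif.mono (ob ∅).1)
  have d3 := d2.mono (ob ∅).1
  have z : (bd ∘ Prod.map dk id) '' ({0} ×ˢ S2) = {x ∈ Sph ℂ | x.2 = 0} := by
    rw [image_comp, prodMap_image_prod, image_singleton, image_id, ← bd_zero]; simp [dk]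
  refine ⟨1, _, _, _, pg, pg', one_pos, ((d2.opn (ob ∅)).trans (bind_dif.opn (ob ∅))).trans o, d3,
    ?_, fun t ρ x h _ hx => pg_nrm h hx (norm_ex t)⟩
  have p0 : nrm (((0 : E3).swap, 1) : (ℝ × ℂ) × ℝ) = (0, 1) := by
    rw [nrm_self] <;> simp [Sph]
  convert page_dif using 1
  · ext a
    simp only [core, p0, mem_sdiff, mem_prod, mem_range, mem_singleton_iff, not_exists]
    refine ⟨fun h => ⟨⟨h.1.1, fun e => h.2 (a.2.arg / (2 * Real.pi)) ?_⟩, h.1.2⟩,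
      fun h => ⟨⟨h.1.1, h.2⟩, fun t e => h.1.2 (congrArg Prod.fst e).symm⟩⟩
    rw [ex_arg (by simpa using h.1.2), ← e]
  · rw [z]; ext x; simp only [mem_sdiff, mem_ofPred_eq]; tauto

end Pool.Agent.Lib.MP_b2e238_gt
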